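import Pool.Agent.H23.UVD.Targets
import Pool.Agent.H36.UVD.Closure

/-!
# Row R7: no strictly decreasing sequence of growth rates in a finite scheme
-/

set_option autoImplicit false

open TensorProduct Module Filter Topology MvPolynomial

namespace Pool.Agent.H4.UVD

open Pool.Agent.H15.Defect Pool.Agent.H12.Defect Pool.Agent.H14.MM Pool.Agent.H15.CX
open Pool.Agent.H23.UVD (Spans LS T_CLO T_WFP)

universe u

/-- a subspace of dimension at most `d` is spanned by a `d`-tuple -/
theorem exists_span {k : Type u} [Field k] {M : Type u} [AddCommGroup M] [Module k M]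
    [Module.Finite k M] (W : Submodule k M) (d : ℕ) (hd : finrank k W ≤ d) :
    ∃ T : Fin d → M, Submodule.span k (Set.range T) = W := by
  let b := Module.finBasis k W
  refine ⟨fun i => if h : (i : ℕ) < finrank k W then (b ⟨i, h⟩ : M) else 0, ?_⟩
  refine le_antisymm (Submodule.span_le.mpr ?_) ?_
  · rintro _ ⟨i, rfl⟩
    by_cases h : (i : ℕ) < finrank k W
    · simp only [dif_pos h]
      exact (b ⟨i, h⟩).2
    · simp only [dif_neg h]
      exact W.zero_mem
  · have h1 : Submodule.map W.subtype (Submodule.span k (Set.range b)) = W := by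
      rw [b.span_eq, Submodule.map_top, Submodule.range_subtype]
    refine h1.ge.trans ?_
    rw [Submodule.map_span]
    refine Submodule.span_mono ?_
    rintro _ ⟨_, ⟨j, rfl⟩, rfl⟩
    refine ⟨⟨j, j.2.trans_le hd⟩, ?_⟩
    simp only [dif_pos j.2]
    rfl

/-- R7 -/
theorem pf_WFP (k : Type u) [Field k] (hCLO : T_CLO k) : T_WFP k := by
  classical
  intro P _ _ _ s hs hanti
  have hT : ∀ n, ∃ T : Fin (finrank k P) → P →ₗ[k] k, Spans k (s n) T := by
    intro n
    refine exists_span _ _ ?_
    have h1 : finrank k (Module.Dual k P) = finrank k P := Subspace.dual_finrank_eq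
    calc finrank k ((s n).restrictScalars k).dualAnnihilator
        ≤ finrank k (Module.Dual k P) := Submodule.finrank_le _
      _ = finrank k P := h1
  choose T hT using hT
  let e := Module.finBasis k P
  obtain ⟨j, hj⟩ := Pool.Agent.H36.UVD.exists_inCl
    (fun n => fun q : Fin (finrank k P) × Fin (finrank k P) => T n q.1 (e q.2))
  have hcl : Pool.Agent.H23.UVD.InCl k {I | ∃ i, j < i ∧ I = s i} (finrank k P) (s j) := by
    refine ⟨T j, hT j, fun F hF => ?_⟩
    have key : ∀ n, eval (fun q : Fin (finrank k P) × Fin (finrank k P) => T n q.1 (e q.2))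
        (aeval (fun q : Fin (finrank k P) × P => ∑ a, C (e.repr q.2 a) *
          (X (q.1, a) : MvPolynomial (Fin (finrank k P) × Fin (finrank k P)) k)) F) =
        eval (fun q : Fin (finrank k P) × P => T n q.1 q.2) F := by
      intro n
      rw [← coe_aeval_eq_eval, ← coe_aeval_eq_eval]
      change (aeval _) ((aeval _) F) = (aeval _) F
      rw [← AlgHom.comp_apply, comp_aeval]
      congr 2
      funext q
      rw [map_sum]
      conv_rhs => rw [← e.sum_repr q.2, map_sum]
      refine Finset.sum_congr rfl fun a _ => ?_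
      rw [map_mul, aeval_C, aeval_X, map_smul, smul_eq_mul]
      rfl
    rw [← key]
    refine hj _ ?_
    rintro _ ⟨i, hi, rfl⟩
    change eval (fun q : Fin (finrank k P) × Fin (finrank k P) => T i q.1 (e q.2)) _ = 0
    rw [key]
    exact hF (s i) ⟨i, hi, rfl⟩ (T i) (hT i)
  have h1 := hCLO P {I | ∃ i, j < i ∧ I = s i} (finrank k P) (s j) ⟨s (j + 1), j + 1, by omega, rfl⟩
    (by rintro I ⟨i, _, rfl⟩; exact hs i) (hs j) hcl
  have h2 : LS k {I : Ideal P | ∃ i, j < i ∧ I = s i} ≤ Lam k (P ⧸ s (j + 1)) := by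
    refine csSup_le ⟨_, s (j + 1), ⟨j + 1, by omega, rfl⟩, rfl⟩ ?_
    rintro _ ⟨_, ⟨i, hi, rfl⟩, rfl⟩
    exact hanti.antitone (show j + 1 ≤ i from hi)
  exact absurd (h1.trans h2) (not_le.mpr (hanti (Nat.lt_succ_self j)))

end Pool.Agent.H4.UVD
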